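import Pool.Agent.KS6_80.AF.Cat

set_option autoImplicit false

open scoped Topology

namespace Pool.Agent.Results.MP_fb8c36_co.ExactSpectrum

open Pool.Agent.R651.Asc

/-- **The cycle spectrum of the associahedron flip graph, exactly, for every `N ≥ 4`.**
`Triangulation N` is the set of the maximal sets of pairwise non-crossing diagonals of the
convex `N`-gon, `flipGraph N` the flip graph and `cycleSpectrum` the set of the lengths of the
cycles. -/
theorem result :
    cycleSpectrum (flipGraph 4) = ∅ ∧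
    cycleSpectrum (flipGraph 5) = {5} ∧
    cycleSpectrum (flipGraph 6) = Set.Icc 4 14 \ {6} ∧
    (∀ N : ℕ, 7 ≤ N → cycleSpectrum (flipGraph N) = Set.Icc 4 (Nat.card (Triangulation N))) ∧
    (∀ N : ℕ, 3 ≤ N → Nat.card (Triangulation N) = catalan (N - 2)) ∧
    (∀ N : ℕ, 7 ≤ N →
      (cycleSpectrum (flipGraph N)).ncard = Nat.card (Triangulation N) - 3) ∧
    Filter.Tendsto (fun N : ℕ => ((cycleSpectrum (flipGraph N)).ncard : ℝ) /
      (Nat.card (Triangulation N) : ℝ)) Filter.atTop (𝓝 1) := by
  refine ⟨KS6_80.AF.spec_four, KS6_80.AF.spec_five, KS6_80.AF.spec_six, ?_, ?_, ?_,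
    KS6_80.AF.lim⟩
  · intro N hN
    rw [KS6_80.AF.card_tri_catalan (by omega)]
    exact KS6_80.AF.spec_seven hN
  · exact fun N hN => KS6_80.AF.card_tri_catalan hN
  · intro N hN
    rw [KS6_80.AF.card_tri_catalan (by omega)]
    exact KS6_80.AF.ncard_seven hN

end Pool.Agent.Results.MP_fb8c36_co.ExactSpectrum
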